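import Pool.Agent.Work.MP_2738db_nt_A.Interface

/-!
Theorem WS for the Fermat-Catalan conjecture (MP_2738db): the version of Theorem W with elements of
two finitely generated monoids in place of powers: if `a ^ l = ± X ± Y`, `l` prime, `X`, `Y` coprime,
`X` in the monoid generated by `S`, `Y` in the monoid generated by `T`, then `log (X * Y)` is at most
`exp (U ^ C)`, `U = max (2, l, |S|, |T|, logarithms of the elements of S and T)`.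
Statements of the blocks; the proofs are those of `MP_2738db_nt_A` with vectors: `BLUEPRINT.md`.
-/

set_option autoImplicit false

namespace Pool.Agent.Work.MP_2738db_nt_S

open Finset NumberField
open Pool.Agent.Work.MP_2738db_nt_A (HB)

/-- **PIGS**: the pigeonhole lemma with several ideals (copy of `A_helper96/PIG.lean`). -/
def Stmt_PigS : Prop :=
  ∃ C : ℝ, 1 ≤ C ∧ ∀ (K : Type) [Field K] [NumberField K] (ι : Type) [Fintype ι]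
    (𝔠 : ι → Ideal (𝓞 K)) (k : ι → ℕ) (T : ℕ) (y : InfinitePlace K → ℝ) (δ H : ℝ),
    (∀ i, 𝔠 i ≠ ⊥) → 1 ≤ T → 0 < δ → δ ≤ 1 → (Module.finrank ℚ K : ℝ) ≤ H → 2 ≤ H →
    Real.log |(discr K : ℝ)| ≤ H → (Fintype.card ι : ℝ) ≤ H →
    (∀ i, Real.log (Ideal.absNorm (𝔠 i)) ≤ H) →
    ∑ v, (v.mult : ℝ) * y v = ∑ i, (k i : ℝ) * Real.log (Ideal.absNorm (𝔠 i)) →
    ∃ (u : ℕ) (s : ι → ℕ) (η : 𝓞 K), 1 ≤ u ∧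
      (u : ℝ) ≤ Real.exp (C * H ^ 6) * (1 / δ) ^ (2 * H) ∧
      η ≠ 0 ∧ Ideal.span {η} = ∏ i, 𝔠 i ^ s i ∧ (∀ i, |(s i : ℝ) - u * k i / T| ≤ δ) ∧
      ∀ v : InfinitePlace K, |Real.log (v (η : K)) - u / T * y v| ≤ δ

/-- **IDLS**: `α β = ∏ c i ^ k i`, `λ ∈ (α, β)`: then `(λ α) = ∏ 𝔠 i ^ k i * 𝔣` with
`𝔠 i ∣ c i`, `𝔣 ∣ λ²` (copy of `A_helper59/IDL.lean`). -/
def Stmt_IdlS : Prop :=
  ∀ (R : Type) [CommRing R] [IsDedekindDomain R] (ι : Type) [Fintype ι] (α β lam : R)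
    (c : ι → R) (k : ι → ℕ), (∀ i, c i ≠ 0) → lam ≠ 0 →
    Ideal.span {α * β} = Ideal.span {∏ i, c i ^ k i} → lam ∈ Ideal.span {α, β} →
    ∃ (𝔠 : ι → Ideal R) (𝔣 : Ideal R), Ideal.span {lam * α} = (∏ i, 𝔠 i ^ k i) * 𝔣 ∧
      (∀ i, 𝔠 i ∣ Ideal.span {c i}) ∧ 𝔣 ∣ Ideal.span {lam ^ 2}

/-- **DECS**: decomposition of `α = a - θ`, `θ^l = X`, `a^l = X ± ∏ c i ^ k i`
(copy of `A_helper87/DEC.lean`, `T` plays the role of `n` in PIG). -/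
def Stmt_DecS : Prop :=
  ∃ C : ℝ, 1 ≤ C ∧ ∀ (K : Type) [Field K] [NumberField K] (ι : Type) [Fintype ι]
    (c k : ι → ℕ) (l a X T : ℕ) (e : ℤ) (θ : 𝓞 K) (U δ : ℝ), l.Prime → 2 ≤ X →
    (∀ i, 2 ≤ c i) → (∀ i, 1 ≤ k i) → Nat.Coprime X (∏ i, c i ^ k i) → 1 ≤ a →
    (e = 1 ∨ e = -1) → (a : ℤ) ^ l = (X : ℤ) + e * ∏ i, (c i : ℤ) ^ k i →
    ∏ i, c i ^ k i ≤ X → θ ^ l = (X : 𝓞 K) → Module.finrank ℚ K ≤ l →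
    Real.log |(discr K : ℝ)| ≤ U ^ 6 → 1 ≤ T → Real.log X ≤ T →
    2 ≤ U → (l : ℝ) ≤ U → (Fintype.card ι : ℝ) ≤ U → (∀ i, Real.log (c i) ≤ U) →
    0 < δ → δ ≤ 1 →
    ∃ (u : ℕ) (s : ι → ℕ) (r E : ℕ) (e₀ : ι → ℕ) (κ η lam : 𝓞 K), 1 ≤ u ∧
      (u : ℝ) ≤ Real.exp (U ^ C) * (1 / δ) ^ (U ^ C) ∧
      r = T / u ∧ (lam = 1 ∨ lam = l) ∧ IsCoprime lam (X : 𝓞 K) ∧ κ ≠ 0 ∧ η ≠ 0 ∧
      lam * ((a : 𝓞 K) - θ) * (∏ i, (c i : 𝓞 K)) ^ E = κ * η ^ r ∧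
      (∀ i, k i + E * l = e₀ i + s i * r) ∧
      (∑ i, (s i : ℝ) * Real.log (c i) ≤ u * U ^ C) ∧ HB K (η ^ l) (u * U ^ C) ∧
      HB K (κ ^ l) ((u + r * δ) * U ^ C) ∧
      HB K (lam ^ l * ∏ i, (c i : 𝓞 K) ^ e₀ i) ((u + r * δ) * U ^ C)

/-- **WS**: sums of two coprime elements of finitely generated monoids which are `l`-th powers. -/
def Stmt_WS : Prop :=
  ∃ C : ℝ, 1 ≤ C ∧ ∀ (S T : Finset ℕ) (l a X Y : ℕ) (U : ℝ), l.Prime →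
    (∀ b ∈ S, 2 ≤ b ∧ Real.log b ≤ U) → (∀ c ∈ T, 2 ≤ c ∧ Real.log c ≤ U) →
    (S.card : ℝ) ≤ U → (T.card : ℝ) ≤ U →
    X ∈ Submonoid.closure (S : Set ℕ) → Y ∈ Submonoid.closure (T : Set ℕ) →
    Nat.Coprime X Y → 1 ≤ a →
    (a ^ l + X = Y ∨ X + Y = a ^ l ∨ Y + a ^ l = X) → 2 ≤ U → (l : ℝ) ≤ U →
    Real.log (X * Y) ≤ Real.exp (U ^ C)

/-- **FS**: the final theorem, `ShortProgressions` without the condition on `k`. -/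
def Stmt_FS : Prop :=
  ∀ ε σ : ℝ, 0 < ε → 0 ≤ σ → σ + ε < 1 → ∃ κ : ℝ, 0 < κ ∧ ∃ N₀ : ℕ, ∀ N : ℕ, N₀ ≤ N →
    ∀ (S : Finset ℕ) (g r : ℕ), (S.card : ℝ) ≤ (Real.log N) ^ σ →
    (∀ b ∈ S, 2 ≤ b ∧ Real.log b ≤ (Real.log N) ^ (1 / ε)) →
    1 ≤ g → Real.log (g + r) ≤ (Real.log N) ^ (1 / ε) →
    ({x : ℕ | 1 ≤ x ∧ x ≤ N ∧
      ∃ a B m k : ℕ, B ∈ Submonoid.closure (S : Set ℕ) ∧ Nat.Coprime B (g * x + r) ∧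
        1 ≤ a ∧ 2 ≤ m ∧ 1 ≤ k ∧
        ((∃ p : ℕ, p.Prime ∧ p ∣ m ∧ (p : ℝ) ≤ (Real.log N) ^ (1 / ε)) ∨
          (∀ b ∈ S, ∃ p : ℕ, p.Prime ∧ p ∣ b ∧ (p : ℝ) ≤ (Real.log N) ^ (1 / ε)) ∨
          (S.card = 1 ∧ ∃ p : ℕ, p.Prime ∧ p ∣ g * x + r ∧ (p : ℝ) ≤ (Real.log N) ^ (1 / ε))) ∧
        (a ^ m + B = (g * x + r) ^ k ∨ B + (g * x + r) ^ k = a ^ m ∨
          (g * x + r) ^ k + a ^ m = B)}.ncard : ℝ) ≤ (N : ℝ) ^ (1 - κ)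

end Pool.Agent.Work.MP_2738db_nt_S
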